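import Pool.Agent.Helper34.EC.Defs

/-!
# Project EC (MP_234a48_ag), module EC-D2: symmetric curves
-/

set_option autoImplicit false

namespace Pool.Agent.Helper63.EC

open Polynomial Pool.Agent.Helper34.EC

noncomputable section

variable {k : Type} [Field k]

/-! ### Order at the origin -/

/-- The order of `f` at the origin is at least `s`. -/
def Ord (s : ℕ) (f : k[X][X]) : Prop := ∀ i j : ℕ, i + j < s → (f.coeff j).coeff i = 0

theorem Ord.mono {s t : ℕ} (h : s ≤ t) {f : k[X][X]} (hf : Ord t f) : Ord s f :=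
  fun i j hij => hf i j (by omega)

theorem Ord.zero (s : ℕ) : Ord s (0 : k[X][X]) := fun i j _ => by simp

theorem Ord.triv (f : k[X][X]) : Ord 0 f := fun i j h => by omega

theorem Ord.add {s : ℕ} {f h : k[X][X]} (hf : Ord s f) (hh : Ord s h) : Ord s (f + h) := by
  intro i j hij
  rw [coeff_add, coeff_add, hf i j hij, hh i j hij, add_zero]

theorem Ord.sub {s : ℕ} {f h : k[X][X]} (hf : Ord s f) (hh : Ord s h) : Ord s (f - h) := by
  intro i j hij
  rw [coeff_sub, coeff_sub, hf i j hij, hh i j hij, sub_zero]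

theorem Ord.mul {s t : ℕ} {f h : k[X][X]} (hf : Ord s f) (hh : Ord t h) : Ord (s + t) (f * h) := by
  intro i j hij
  rw [coeff_mul, finsetSum_coeff]
  apply Finset.sum_eq_zero
  intro p hp
  rw [coeff_mul]
  apply Finset.sum_eq_zero
  intro q hq
  have h1 : p.1 + p.2 = j := Finset.HasAntidiagonal.mem_antidiagonal.mp hp
  have h2 : q.1 + q.2 = i := Finset.HasAntidiagonal.mem_antidiagonal.mp hq
  by_cases h3 : q.1 + p.1 < s
  · rw [hf _ _ h3, zero_mul]
  · rw [hh q.2 p.2 (by omega), mul_zero]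

theorem Ord.sum {ι : Type} {s : ℕ} (S : Finset ι) (f : ι → k[X][X]) (h : ∀ i ∈ S, Ord s (f i)) :
    Ord s (∑ i ∈ S, f i) := by
  classical
  induction S using Finset.induction_on with
  | empty => simpa using Ord.zero s
  | insert a S ha ih =>
    rw [Finset.sum_insert ha]
    exact (h a (Finset.mem_insert_self a S)).add
      (ih fun i hi => h i (Finset.mem_insert_of_mem hi))

theorem Ord.pow {s : ℕ} {f : k[X][X]} (hf : Ord s f) (n : ℕ) : Ord (s * n) (f ^ n) := by
  induction n with
  | zero => exact Ord.triv _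
  | succ n ih =>
    rw [pow_succ, Nat.mul_succ]
    exact ih.mul hf

theorem Ord_CX : Ord 1 (C X : k[X][X]) := by
  intro i j hij
  have hi : i = 0 := by omega
  have hj : j = 0 := by omega
  subst hi hj
  simp

theorem Ord_X : Ord 1 (X : k[X][X]) := by
  intro i j hij
  have hi : i = 0 := by omega
  have hj : j = 0 := by omega
  subst hi hj
  simp

theorem expand (f : k[X][X]) : f = ∑ j ∈ f.support, ∑ i ∈ (f.coeff j).support,
    C (C ((f.coeff j).coeff i)) * (C X) ^ i * X ^ j := by
  conv_lhs => rw [f.as_sum_support]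
  apply Finset.sum_congr rfl
  intro j _
  conv_lhs => rw [(f.coeff j).as_sum_support]
  rw [map_sum]
  apply Finset.sum_congr rfl
  intro i _
  rw [← C_mul_X_pow_eq_monomial, ← C_mul_X_pow_eq_monomial, map_mul, map_pow]

theorem map_expand (φ : k[X][X] →+* k[X][X]) (hc : ∀ c : k, φ (C (C c)) = C (C c))
    (f : k[X][X]) : φ f = ∑ j ∈ f.support, ∑ i ∈ (f.coeff j).support,
    C (C ((f.coeff j).coeff i)) * φ (C X) ^ i * φ X ^ j := by
  conv_lhs => rw [expand f]
  rw [map_sum]
  apply Finset.sum_congr rfl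
  intro j _
  rw [map_sum]
  apply Finset.sum_congr rfl
  intro i _
  rw [map_mul, map_mul, map_pow, map_pow, hc]

theorem le_of_mem {s : ℕ} {f : k[X][X]} (hf : Ord s f) {i j : ℕ}
    (hi : i ∈ (f.coeff j).support) : s ≤ i + j := by
  by_contra h
  exact (mem_support_iff.1 hi) (hf i j (by omega))

theorem Ord_lin {φ : k[X][X] →+* k[X][X]} (hc : ∀ c : k, φ (C (C c)) = C (C c))
    (h1 : Ord 1 (φ (C X))) (h2 : Ord 1 (φ X)) {s : ℕ} {f : k[X][X]} (hf : Ord s f) :
    Ord s (φ f) := by
  rw [map_expand φ hc f]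
  refine Ord.sum _ _ fun j _ => Ord.sum _ _ fun i hi => ?_
  refine Ord.mono ?_ (((Ord.triv (C (C ((f.coeff j).coeff i)))).mul (h1.pow i)).mul (h2.pow j))
  have := le_of_mem hf hi
  omega

theorem pow_diff {u A : k[X][X]} (hu : Ord 1 u) (hA : Ord 2 A) (i : ℕ) :
    Ord (i + 1) ((u + A) ^ i - u ^ i) := by
  induction i with
  | zero => simpa using Ord.zero 1
  | succ i ih =>
    have e : (u + A) ^ (i + 1) - u ^ (i + 1) =
        ((u + A) ^ i - u ^ i) * (u + A) + u ^ i * A := by ring
    rw [e]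
    refine Ord.add (ih.mul (hu.add (hA.mono (by norm_num)))) ?_
    refine Ord.mono ?_ ((hu.pow i).mul hA)
    omega

theorem Ord_theta {φ : k[X][X] →+* k[X][X]} (hc : ∀ c : k, φ (C (C c)) = C (C c))
    {A B : k[X][X]} (hA : Ord 2 A) (hB : Ord 2 B) (h1 : φ (C X) = C X + A) (h2 : φ X = X + B)
    {s : ℕ} {f : k[X][X]} (hf : Ord s f) : Ord (s + 1) (φ f - f) := by
  have e : φ f - f = ∑ j ∈ f.support, ∑ i ∈ (f.coeff j).support,
      C (C ((f.coeff j).coeff i)) * ((C X + A) ^ i * (X + B) ^ j - (C X) ^ i * X ^ j) := by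
    have e1 := map_expand φ hc f
    have e2 := expand f
    rw [h1, h2] at e1
    refine (congrArg₂ (fun a b : k[X][X] => a - b) e1 e2).trans ?_
    rw [← Finset.sum_sub_distrib]
    apply Finset.sum_congr rfl
    intro j _
    rw [← Finset.sum_sub_distrib]
    apply Finset.sum_congr rfl
    intro i _
    ring
  rw [e]
  refine Ord.sum _ _ fun j _ => Ord.sum _ _ fun i hi => ?_
  have hs := le_of_mem hf hi
  have e3 : (C X + A) ^ i * (X + B) ^ j - (C X) ^ i * X ^ j =
      ((C X + A) ^ i - (C X) ^ i) * (X + B) ^ j + (C X) ^ i * ((X + B) ^ j - X ^ j) := by ring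
  rw [e3]
  have hB1 : Ord 1 (X + B) := Ord_X.add (hB.mono (by norm_num))
  have o1 : Ord (s + 1) (((C X + A) ^ i - (C X) ^ i) * (X + B) ^ j) := by
    refine Ord.mono ?_ ((pow_diff Ord_CX hA i).mul (hB1.pow j))
    omega
  have o2 : Ord (s + 1) ((C X) ^ i * ((X + B) ^ j - X ^ j)) := by
    refine Ord.mono ?_ ((Ord_CX.pow i).mul (pow_diff Ord_X hB j))
    omega
  have o3 := (Ord.triv (C (C ((f.coeff j).coeff i)))).mul (o1.add o2)
  rwa [Nat.zero_add] at o3

theorem Ord_descend {φ : k[X][X] →+* k[X][X]} (hc : ∀ c : k, φ (C (C c)) = C (C c))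
    {A B : k[X][X]} (hA : Ord 2 A) (hB : Ord 2 B) (h1 : φ (C X) = C X + A) (h2 : φ X = X + B)
    {m : ℕ} {f : k[X][X]} (hf : Ord m (φ f)) : Ord m f := by
  have key : ∀ s, s ≤ m → Ord s f := by
    intro s
    induction s with
    | zero => intro _; exact Ord.triv f
    | succ s ih =>
      intro hs
      have h3 := Ord_theta hc hA hB h1 h2 (ih (by omega))
      have h4 : Ord (s + 1) (φ f - (φ f - f)) := (hf.mono hs).sub h3
      rwa [sub_sub_cancel] at h4
  exact key m le_rfl

/-! ### Substitutions -/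

/-- The substitution of `a` for the inner and of `b` for the outer variable. -/
def sb (a b : k[X][X]) : k[X][X] →+* k[X][X] :=
  eval₂RingHom (eval₂RingHom (C.comp C) a) b

theorem sb_CC (a b : k[X][X]) (c : k) : sb a b (C (C c)) = C (C c) := by simp [sb]

theorem sb_CX (a b : k[X][X]) : sb a b (C X) = a := by simp [sb]

theorem sb_X (a b : k[X][X]) : sb a b X = b := by simp [sb]

theorem hom_ext {φ ψ : k[X][X] →+* k[X][X]} (h1 : ∀ c : k, φ (C (C c)) = ψ (C (C c)))
    (h2 : φ (C X) = ψ (C X)) (h3 : φ X = ψ X) : φ = ψ := by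
  apply Polynomial.ringHom_ext
  · intro f
    have : φ.comp C = ψ.comp C := by
      apply Polynomial.ringHom_ext
      · intro c
        exact h1 c
      · exact h2
    exact DFunLike.congr_fun this f
  · exact h3

theorem sh_CC (a b c : k) : sh a b (C (C c)) = C (C c) := by
  simp [sh]

theorem sh_CX (a b : k) : sh a b (C X) = C X + C (C a) := by
  simp [sh]

theorem sh_X (a b : k) : sh a b X = X + C (C b) := by
  simp [sh]

/-- The substitution of the elementary symmetric polynomials. -/
def Phi : k[X][X] →+* k[X][X] := sb (C X + X) (C X * X)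

/-- The same in the coordinates centered at a point. -/
def Phi' (p q : k) : k[X][X] →+* k[X][X] :=
  sb (C X + X) (C (C q) * C X + C (C p) * X + C X * X)

theorem sh_Phi (p q : k) (G : k[X][X]) :
    sh p q (Phi G) = Phi' p q (sh (p + q) (p * q) G) := by
  have h : (sh p q).comp Phi = (Phi' p q).comp (sh (p + q) (p * q)) := by
    apply hom_ext
    · intro c
      simp only [RingHom.comp_apply, Phi, Phi', sb_CC, sh_CC]
    · simp only [RingHom.comp_apply, Phi, Phi', sb_CX, sh_CX, sh_X, map_add, sb_CC]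
      ring
    · simp only [RingHom.comp_apply, Phi, Phi', sb_X, sh_CX, sh_X, map_add, map_mul, sb_CC]
      ring
  exact DFunLike.congr_fun h G

theorem Ord_Phi' {p q : k} (hpq : p ≠ q) {m : ℕ} {f : k[X][X]} (hf : Ord m (Phi' p q f)) :
    Ord m f := by
  have hd : p - q ≠ 0 := sub_ne_zero.2 hpq
  set x1 : k[X][X] := C (C (p - q)⁻¹) * (C (C p) * C X - X) with hx1
  set x2 : k[X][X] := C (C (p - q)⁻¹) * (X - C (C q) * C X) with hx2
  have hone : (C (C (p - q)⁻¹) : k[X][X]) * C (C (p - q)) = 1 := by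
    rw [← map_mul, ← map_mul, inv_mul_cancel₀ hd, map_one, map_one]
  have o1 : Ord 1 x1 := by
    have h := (Ord.triv (C (C (p - q)⁻¹) : k[X][X])).mul
      (((Ord.triv (C (C p) : k[X][X])).mul Ord_CX).sub (by simpa using Ord_X (k := k)))
    simpa using h
  have o2 : Ord 1 x2 := by
    have h := (Ord.triv (C (C (p - q)⁻¹) : k[X][X])).mul
      ((Ord_X (k := k)).sub (by simpa using (Ord.triv (C (C q) : k[X][X])).mul Ord_CX))
    simpa using h
  have hlin := Ord_lin (φ := sb x1 x2) (sb_CC x1 x2) (by rw [sb_CX]; exact o1)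
    (by rw [sb_X]; exact o2) hf
  refine Ord_descend (φ := (sb x1 x2).comp (Phi' p q)) (A := 0) (B := x1 * x2)
    (fun c => by rw [RingHom.comp_apply, Phi', sb_CC, sb_CC]) (Ord.zero 2) (o1.mul o2) ?_ ?_ hlin
  · rw [RingHom.comp_apply, Phi', sb_CX, map_add, sb_CX, sb_X, add_zero, hx1, hx2]
    have e : (C (C (p - q)⁻¹) : k[X][X]) * (C (C p) * C X - X) +
        C (C (p - q)⁻¹) * (X - C (C q) * C X) =
        (C (C (p - q)⁻¹) * C (C (p - q))) * C X := by
      rw [map_sub, map_sub]
      ring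
    rw [e, hone, one_mul]
  · rw [RingHom.comp_apply, Phi', sb_X, map_add, map_add, map_mul, map_mul, map_mul, sb_CC,
      sb_CC, sb_CX, sb_X]
    have e : (C (C q) : k[X][X]) * x1 + C (C p) * x2 =
        (C (C (p - q)⁻¹) * C (C (p - q))) * X := by
      rw [hx1, hx2, map_sub, map_sub]
      ring
    rw [e, hone, one_mul]

/-! ### Symmetric polynomials -/

theorem coeff_swap' (f : k[X][X]) (i j : ℕ) :
    ((Bivariate.swap f).coeff j).coeff i = (f.coeff i).coeff j := by
  induction f using Polynomial.induction_on' with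
  | add p q hp hq => simp only [map_add, coeff_add, hp, hq]
  | monomial n a =>
    induction a using Polynomial.induction_on' with
    | add p q hp hq => simp only [map_add, coeff_add, hp, hq]
    | monomial m r =>
      rw [Bivariate.swap_monomial_monomial]
      simp only [coeff_monomial]
      by_cases h1 : m = j
      · by_cases h2 : n = i
        · simp [h1, h2]
        · simp [h1, h2, coeff_monomial]
      · by_cases h2 : n = i
        · simp [h1, h2, coeff_monomial]
        · simp [h1, h2]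

theorem sh_swap (p q : k) (f : k[X][X]) :
    sh p q (Bivariate.swap f) = Bivariate.swap (sh q p f) := by
  have h : (sh p q).comp ((Bivariate.swap (R := k)).toRingEquiv.toRingHom) =
      ((Bivariate.swap (R := k)).toRingEquiv.toRingHom).comp (sh q p) := by
    apply hom_ext
    · intro c
      change sh p q (Bivariate.swap (C (C c))) = Bivariate.swap (sh q p (C (C c)))
      rw [sh_CC, Bivariate.swap_C_C, sh_CC]
    · change sh p q (Bivariate.swap (C X)) = Bivariate.swap (sh q p (C X))
      rw [sh_CX, Bivariate.swap_X, map_add, Bivariate.swap_X, Bivariate.swap_C_C, sh_X]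
    · change sh p q (Bivariate.swap X) = Bivariate.swap (sh q p X)
      rw [sh_X, Bivariate.swap_Y, map_add, Bivariate.swap_Y, Bivariate.swap_C_C, sh_CX]
  exact DFunLike.congr_fun h f

/-- The total degree is at most `d`. -/
def Tot (d : ℕ) (f : k[X][X]) : Prop := ∀ i j : ℕ, d < i + j → (f.coeff j).coeff i = 0

theorem Tot.mono {d e : ℕ} (h : d ≤ e) {f : k[X][X]} (hf : Tot d f) : Tot e f :=
  fun i j hij => hf i j (by omega)

theorem Tot.zero (d : ℕ) : Tot d (0 : k[X][X]) := fun i j _ => by simp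

theorem Tot.add {d : ℕ} {f h : k[X][X]} (hf : Tot d f) (hh : Tot d h) : Tot d (f + h) := by
  intro i j hij
  rw [coeff_add, coeff_add, hf i j hij, hh i j hij, add_zero]

theorem Tot.sub {d : ℕ} {f h : k[X][X]} (hf : Tot d f) (hh : Tot d h) : Tot d (f - h) := by
  intro i j hij
  rw [coeff_sub, coeff_sub, hf i j hij, hh i j hij, sub_zero]

theorem Tot.mul {d e : ℕ} {f h : k[X][X]} (hf : Tot d f) (hh : Tot e h) :
    Tot (d + e) (f * h) := by
  intro i j hij
  rw [coeff_mul, finsetSum_coeff]
  apply Finset.sum_eq_zero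
  intro p hp
  rw [coeff_mul]
  apply Finset.sum_eq_zero
  intro q hq
  have h1 : p.1 + p.2 = j := Finset.HasAntidiagonal.mem_antidiagonal.mp hp
  have h2 : q.1 + q.2 = i := Finset.HasAntidiagonal.mem_antidiagonal.mp hq
  by_cases h3 : d < q.1 + p.1
  · rw [hf _ _ h3, zero_mul]
  · rw [hh q.2 p.2 (by omega), mul_zero]

theorem Tot.sum {ι : Type} {d : ℕ} (S : Finset ι) (f : ι → k[X][X]) (h : ∀ i ∈ S, Tot d (f i)) :
    Tot d (∑ i ∈ S, f i) := by
  classical
  induction S using Finset.induction_on with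
  | empty => simpa using Tot.zero d
  | insert a S ha ih =>
    rw [Finset.sum_insert ha]
    exact (h a (Finset.mem_insert_self a S)).add
      (ih fun i hi => h i (Finset.mem_insert_of_mem hi))

theorem Tot_CC (c : k) : Tot 0 (C (C c) : k[X][X]) := by
  intro i j hij
  rcases Nat.eq_zero_or_pos j with hj | hj
  · subst hj
    rw [coeff_C_zero, coeff_C_of_ne_zero (by omega)]
  · rw [coeff_C_of_ne_zero (by omega), coeff_zero]

theorem Tot_CX : Tot 1 (C X : k[X][X]) := by
  intro i j hij
  rcases Nat.eq_zero_or_pos j with hj | hj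
  · subst hj
    rw [coeff_C_zero, coeff_X_of_ne_one (by omega)]
  · rw [coeff_C_of_ne_zero (by omega), coeff_zero]

theorem Tot_X : Tot 1 (X : k[X][X]) := by
  intro i j hij
  by_cases hj : j = 1
  · subst hj
    rw [coeff_X_one, coeff_one, if_neg (by omega)]
  · rw [coeff_X_of_ne_one hj, coeff_zero]

theorem Tot.pow {d : ℕ} {f : k[X][X]} (hf : Tot d f) (n : ℕ) : Tot (d * n) (f ^ n) := by
  induction n with
  | zero =>
    have := Tot_CC (1 : k)
    simpa using this
  | succ n ih =>
    rw [pow_succ, Nat.mul_succ]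
    exact ih.mul hf

/-- The power sums in terms of the elementary symmetric polynomials. -/
def pw : ℕ → k[X][X]
  | 0 => C (C 2)
  | 1 => C X
  | a + 2 => C X * pw (a + 1) - X * pw a

theorem pw_spec (a : ℕ) : Tot a (pw a : k[X][X]) ∧ Tot (a + 1) (pw (a + 1) : k[X][X]) ∧
    Phi (pw a : k[X][X]) = (C X) ^ a + X ^ a ∧
    Phi (pw (a + 1) : k[X][X]) = (C X) ^ (a + 1) + X ^ (a + 1) := by
  induction a with
  | zero =>
    refine ⟨Tot_CC 2, Tot_CX, ?_, ?_⟩
    · rw [pw, Phi, sb_CC, pow_zero, pow_zero]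
      simp only [map_ofNat]
      norm_num
    · rw [zero_add, pw, Phi, sb_CX, pow_one, pow_one]
  | succ a ih =>
    obtain ⟨h1, h2, h3, h4⟩ := ih
    refine ⟨h2, ?_, h4, ?_⟩
    · change Tot (a + 2) (C X * pw (a + 1) - X * pw a)
      refine Tot.sub ?_ ?_
      · exact (Tot_CX.mul h2).mono (by omega)
      · exact (Tot_X.mul h1).mono (by omega)
    · change Phi (C X * pw (a + 1) - X * pw a) = _
      rw [map_sub, map_mul, map_mul, h3, h4, Phi, sb_CX, sb_X]
      ring

theorem exists_sym {D : ℕ} {H : k[X][X]} (hD : H.natDegree ≤ D)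
    (hs : ∀ i j, (H.coeff j).coeff i = (H.coeff i).coeff j) :
    ∃ G : k[X][X], Tot D G ∧ Phi G = H := by
  classical
  set c : ℕ → ℕ → k := fun i j => (H.coeff j).coeff i with hc
  have hsc : ∀ i j, c i j = c j i := hs
  have hj0 : ∀ i j, D < j → c i j = 0 := by
    intro i j hj
    rw [hc]
    simp only
    rw [coeff_eq_zero_of_natDegree_lt (lt_of_le_of_lt hD hj), coeff_zero]
  have hi0 : ∀ i j, D < i → c i j = 0 := fun i j hi => by rw [hsc]; exact hj0 j i hi
  set S := Finset.range (D + 1) ×ˢ Finset.range (D + 1) with hS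
  have hH : H = ∑ x ∈ S, C (C (c x.1 x.2)) * (C X) ^ x.1 * X ^ x.2 := by
    ext j i
    rw [finsetSum_coeff, finsetSum_coeff]
    have e : ∀ x : ℕ × ℕ, ((C (C (c x.1 x.2)) * (C X) ^ x.1 * X ^ x.2 : k[X][X]).coeff j).coeff i =
        if x = (i, j) then c i j else 0 := by
      rintro ⟨a, b⟩
      have e1 : (C (C (c a b)) * (C X) ^ a * X ^ b : k[X][X]) =
          monomial b (monomial a (c a b)) := by
        rw [← C_mul_X_pow_eq_monomial, ← C_mul_X_pow_eq_monomial, map_mul, map_pow]
      simp only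
      rw [e1, coeff_monomial]
      by_cases h1 : b = j
      · rw [if_pos h1, coeff_monomial]
        by_cases h2 : a = i
        · rw [if_pos h2, if_pos (by rw [h1, h2]), h1, h2]
        · rw [if_neg h2, if_neg (by simp [h2])]
      · rw [if_neg h1, if_neg (by simp [h1]), coeff_zero]
    rw [Finset.sum_congr rfl fun x _ => e x, Finset.sum_ite_eq']
    split_ifs with h
    · rfl
    · rw [hS, Finset.mem_product, Finset.mem_range, Finset.mem_range, not_and_or] at h
      rcases h with h | h
      · exact hi0 i j (by simpa using h)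
      · exact hj0 i j (by simpa using h)
  -- the three parts
  set F : ℕ × ℕ → k[X][X] := fun x => C (C (c x.1 x.2)) * (C X) ^ x.1 * X ^ x.2 with hF
  have hsplit : ∑ x ∈ S, F x = ∑ x ∈ S.filter (fun x => x.1 = x.2), F x +
      ∑ x ∈ S.filter (fun x => x.1 < x.2), (F x + F (x.2, x.1)) := by
    have e1 : ∑ x ∈ S, F x = ∑ x ∈ S.filter (fun x => x.1 = x.2), F x +
        ∑ x ∈ S.filter (fun x => ¬ x.1 = x.2), F x :=
      (Finset.sum_filter_add_sum_filter_not S _ F).symm
    have e2 : ∑ x ∈ S.filter (fun x => ¬ x.1 = x.2), F x =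
        ∑ x ∈ (S.filter (fun x => ¬ x.1 = x.2)).filter (fun x => x.1 < x.2), F x +
        ∑ x ∈ (S.filter (fun x => ¬ x.1 = x.2)).filter (fun x => ¬ x.1 < x.2), F x :=
      (Finset.sum_filter_add_sum_filter_not _ _ F).symm
    have e3 : (S.filter (fun x => ¬ x.1 = x.2)).filter (fun x => x.1 < x.2) =
        S.filter (fun x => x.1 < x.2) := by
      rw [Finset.filter_filter]
      apply Finset.filter_congr
      intro x _
      constructor
      · exact fun h => h.2
      · exact fun h => ⟨by omega, h⟩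
    have e4 : ∑ x ∈ (S.filter (fun x => ¬ x.1 = x.2)).filter (fun x => ¬ x.1 < x.2), F x =
        ∑ x ∈ S.filter (fun x => x.1 < x.2), F (x.2, x.1) := by
      refine Finset.sum_nbij' (fun x => (x.2, x.1)) (fun x => (x.2, x.1)) ?_ ?_ ?_ ?_ ?_
      · rintro ⟨a, b⟩ hx
        simp only [hS, Finset.mem_filter, Finset.mem_product, Finset.mem_range] at hx ⊢
        omega
      · rintro ⟨a, b⟩ hx
        simp only [hS, Finset.mem_filter, Finset.mem_product, Finset.mem_range] at hx ⊢
        omega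
      · rintro ⟨a, b⟩ _
        rfl
      · rintro ⟨a, b⟩ _
        rfl
      · rintro ⟨a, b⟩ _
        rfl
    rw [e1, e2, e3, e4, Finset.sum_add_distrib]
  refine ⟨∑ x ∈ S.filter (fun x => x.1 = x.2), C (C (c x.1 x.2)) * X ^ x.1 +
    ∑ x ∈ S.filter (fun x => x.1 < x.2), C (C (c x.1 x.2)) * (X ^ x.1 * pw (x.2 - x.1)), ?_, ?_⟩
  · refine Tot.add (Tot.sum _ _ fun x hx => ?_) (Tot.sum _ _ fun x hx => ?_)
    · refine Tot.mono ?_ ((Tot_CC (c x.1 x.2)).mul (Tot_X.pow x.1))
      simp only [hS, Finset.mem_filter, Finset.mem_product, Finset.mem_range] at hx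
      omega
    · refine Tot.mono ?_ ((Tot_CC (c x.1 x.2)).mul ((Tot_X.pow x.1).mul (pw_spec (x.2 - x.1)).1))
      simp only [hS, Finset.mem_filter, Finset.mem_product, Finset.mem_range] at hx
      omega
  · conv_rhs => rw [hH, hsplit]
    rw [map_add, map_sum, map_sum]
    congr 1
    · apply Finset.sum_congr rfl
      intro x hx
      have hx' := (Finset.mem_filter.1 hx).2
      rw [map_mul, map_pow, hF]
      simp only
      rw [Phi, sb_CC, sb_X, ← hx', mul_pow]
      ring
    · apply Finset.sum_congr rfl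
      intro x hx
      have hx' := (Finset.mem_filter.1 hx).2
      rw [map_mul, map_mul, map_pow, (pw_spec (x.2 - x.1)).2.2.1, hF]
      simp only
      rw [Phi, sb_CC, sb_X, hsc x.2 x.1]
      have e : x.2 = x.1 + (x.2 - x.1) := by omega
      rw [e, Nat.add_sub_cancel_left, mul_pow]
      ring

theorem mem_rows {D : ℕ} {G : k[X][X]} (hG : Tot D G) :
    G ∈ Pool.Agent.Helper41.Fat.rows k (fun j => D + 1 - j) := by
  intro j
  rw [mem_degreeLT, degree_lt_iff_coeff_zero]
  intro i hi
  rcases Nat.lt_or_ge D (i + j) with h | h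
  · exact hG i j h
  · exfalso
    have : D + 1 - j ≤ i := hi
    omega

/-- EC-D2 -/
theorem sym_curve {g : ℕ} (p q : Fin g → k) (hpq : ∀ i, p i ≠ q i) {h : k[X][X]} (h0 : h ≠ 0)
    {N γ : ℕ} (hN : h.natDegree ≤ N) (hN' : ∀ j, (h.coeff j).natDegree ≤ N)
    (h1 : ∀ i, MultGe γ (p i) (q i) h) (h2 : ∀ i, MultGe γ (q i) (p i) h) :
    ∃ G ∈ Pool.Agent.Helper41.Fat.rows k (fun j => 2 * N + 1 - j), G ≠ 0 ∧
      ∀ i, MultGe (2 * γ) (p i + q i) (p i * q i) G := by
  set h' : k[X][X] := Bivariate.swap h with hh'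
  have h0' : h' ≠ 0 := by
    rw [hh']
    exact (map_ne_zero_iff _ (Bivariate.swap (R := k)).injective).2 h0
  have hN1 : h'.natDegree ≤ N := by
    rw [natDegree_le_iff_coeff_eq_zero]
    intro j hj
    ext i
    rw [hh', coeff_swap', coeff_zero]
    exact coeff_eq_zero_of_natDegree_lt (lt_of_le_of_lt (hN' i) hj)
  have hH : (h * h').natDegree ≤ 2 * N := by
    refine natDegree_mul_le.trans ?_
    omega
  have hsym : ∀ i j, ((h * h').coeff j).coeff i = ((h * h').coeff i).coeff j := by
    intro i j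
    have e : Bivariate.swap (h * h') = h * h' := by
      rw [map_mul, hh', Bivariate.swap_swap_apply, mul_comm]
    rw [← coeff_swap', e]
  obtain ⟨G, hG, hGH⟩ := exists_sym hH hsym
  refine ⟨G, mem_rows hG, ?_, fun i => ?_⟩
  · rintro rfl
    rw [map_zero] at hGH
    exact mul_ne_zero h0 h0' hGH.symm
  · have m1 : MultGe γ (p i) (q i) h' := by
      intro a b hab
      rw [hh', sh_swap, coeff_swap']
      exact h2 i b a (by omega)
    have m2 : MultGe (2 * γ) (p i) (q i) (h * h') := by
      have := (h1 i).mul m1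
      rwa [← two_mul] at this
    have m3 : Ord (2 * γ) (sh (p i) (q i) (Phi G)) := by
      rw [hGH]
      exact m2
    rw [sh_Phi] at m3
    exact Ord_Phi' (hpq i) m3

end

end Pool.Agent.Helper63.EC
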